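import Pool.Agent.Gabow87.R.Long
import Pool.Agent.Gabow87.Refine

/-!
# MP_77f645_co: arbitrarily many blocks at both ends, for large rank, and rank defect at most one

For every `k` there is an `r₀` such that for every matroid of rank `r ≥ r₀` and every two bases `B`,
`B'` there are orderings of `B` and `B'` for which all blocks of `r` cyclically consecutive terms
starting at a term number `i` (numbered from `0`) with `i ≤ r` or `i mod r ∈ {0, ..., k}` or
`i mod r ∈ {r - k, ..., r - 1}` are bases, and any `r - 1` cyclically consecutive terms are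
independent.
-/

set_option autoImplicit false

namespace Pool.Agent.Results.MP_77f645_co.LongExchanges

/-- The block of `r` cyclically consecutive terms, starting with the term number `i`, of the
sequence `u 0, ..., u (r - 1), v 0, ..., v (r - 1)` of length `2 r` (numbered from `0`): the set of
all terms whose number `j` satisfies `(j - i) mod 2 r < r`. -/
def block {α : Type*} {r : ℕ} (u v : Fin r → α) (i : Fin (r + r)) : Set α :=
  {x | ∃ j : Fin (r + r), (j - i).val < r ∧ x = Fin.append u v j}

/-- For every `k` there is an `r₀` such that the following holds for every `r ≥ r₀`. Let `b` and `b'`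
list two bases of a matroid of rank `r` (they may share elements). Then they can be reordered such
that all blocks which start at a term number `i` with `i ≤ r` or `i mod r ≤ k` or `i mod r ≥ r - k`
are bases, and any `r - 1` cyclically consecutive terms are distinct and form an independent set. -/
theorem result (k : ℕ) : ∃ r₀ : ℕ, ∀ (r : ℕ), r₀ ≤ r → ∀ {α : Type*} (M : Matroid α)
    (b b' : Fin r → α), Function.Injective b → Function.Injective b' →
    M.IsBase (Set.range b) → M.IsBase (Set.range b') →
    ∃ σ σ' : Equiv.Perm (Fin r),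
      (∀ i : Fin (r + r), (i.val ≤ r ∨ i.val % r ≤ k ∨ r - k ≤ i.val % r) →
        M.IsBase (block (b ∘ σ) (b' ∘ σ') i)) ∧
      ∀ i : Fin (r + r), Set.InjOn (Fin.append (b ∘ σ) (b' ∘ σ')) {j | (j - i).val < r - 1} ∧
        M.Indep (Fin.append (b ∘ σ) (b' ∘ σ') '' {j | (j - i).val < r - 1}) := by
  refine ⟨(k + 1) * k + Pool.Agent.Gabow87.nK k + 2 * k, ?_⟩
  intro r hr α M b b' hb hb' hB hB'
  obtain ⟨τ, τ', hτ⟩ := Pool.Agent.Gabow87.long_blocks M k hr b b' hb hb' hB hB'
  have hbτ : Function.Injective (b ∘ τ) := hb.comp τ.injective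
  have hBτ : M.IsBase (Set.range (b ∘ τ)) := by
    rw [τ.surjective.range_comp]
    exact hB
  have hBτ' : M.IsBase (Set.range (b' ∘ τ')) := by
    rw [τ'.surjective.range_comp]
    exact hB'
  obtain ⟨σ, σ', h1, h2, h3⟩ := Pool.Agent.Near48.near_refine M (b ∘ τ) (b' ∘ τ') hbτ hBτ hBτ'
  refine ⟨τ * σ, τ' * σ', ?_, h2⟩
  intro i hi
  rcases hi with hi | hi
  · exact h1 i hi
  · refine h3 (i.val % r) (fun j hj => hτ j ?_) i rfl
    rw [hj]
    omega

end Pool.Agent.Results.MP_77f645_co.LongExchanges
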