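import Pool.Agent.H68Rg.Mono
import Pool.Agent.H64SwK.Even
import Pool.Agent.H47Two.Matroid
import Pool.Agent.H60S1.Final

/-!
# MP_77f645_co: serial exchange between two bases of a representable matroid

Let `M` be a matroid which is represented over a field `K`, let `B`, `B'` be two finite bases, and
let `X` be a subset of `B`. Then there is a subset `Y` of `B'` of the same size such that the pair
`(B, B')` can be turned into the pair `((B \ X) ∪ Y, (B' \ Y) ∪ X)` by exchanges of at most two
elements with as many elements, while `B \ X` stays in the first basis. Single elements suffice if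
the characteristic of `K` is `0` or larger than `|X|`. For `X = B` this turns `(B, B')` into
`(B', B)`, and single elements suffice if `|B \ B'| ≤ 13`, or if `|B \ B'| ≤ 33` and the
characteristic is `3`, or if the characteristic is `0` or larger than `(|B \ B'| + 2) / 4`. If it is
`0` or larger than `|B \ B'| / 2 + 1`, then, except near the middle, no element of `B'` ever leaves
the first basis.
-/

set_option autoImplicit false

namespace Pool.Agent.Results.MP_77f645_co.MonotoneSwap

/-- The pair `Q` arises from the pair `P` by a symmetric exchange of an element `x` of its first set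
with an element `y` of its second set, and both sets of `Q` are bases of `M`. -/
def SymExchange {α : Type*} (M : Matroid α) (P Q : Set α × Set α) : Prop :=
  (∃ x ∈ P.1, ∃ y ∈ P.2, Q.1 = insert y (P.1 \ {x}) ∧ Q.2 = insert x (P.2 \ {y})) ∧
    M.IsBase Q.1 ∧ M.IsBase Q.2

/-- The pair `Q` arises from the pair `P` by the exchange of a set `S` of at most two elements of
its first set with a set `T` of as many elements of its second set, and both sets of `Q` are bases
of `M`. -/
def TwoExchange {α : Type*} (M : Matroid α) (P Q : Set α × Set α) : Prop :=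
  (∃ S ⊆ P.1, ∃ T ⊆ P.2, S.encard = T.encard ∧ S.encard ≤ 2 ∧
    Q.1 = (P.1 \ S) ∪ T ∧ Q.2 = (P.2 \ T) ∪ S) ∧ M.IsBase Q.1 ∧ M.IsBase Q.2

/-- The pair `P` is in the middle between `(B, B')` and `(B', B)`: twice the number of elements of
`B' \ B` in its first set differs from `|B \ B'|` by at most `2`. -/
def Middle {α : Type*} (B B' : Set α) (P : Set α × Set α) : Prop :=
  (B \ B').ncard ≤ 2 * (P.1 ∩ (B' \ B)).ncard + 2 ∧
    2 * (P.1 ∩ (B' \ B)).ncard ≤ (B \ B').ncard + 2

theorem SymExchange.two {α : Type*} {M : Matroid α} {P Q : Set α × Set α}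
    (h : SymExchange M P Q) : TwoExchange M P Q := by
  obtain ⟨⟨x, hx, y, hy, h1, h2⟩, h3⟩ := h
  refine ⟨⟨{x}, Set.singleton_subset_iff.2 hx, {y}, Set.singleton_subset_iff.2 hy, by simp, ?_,
    by rw [h1, Set.union_singleton], by rw [h2, Set.union_singleton]⟩, h3⟩
  rw [Set.encard_singleton]
  exact one_le_two

/-- Let the matroid `M` be represented over the field `K` by the vectors `φ e`, let `B` and `B'` be
two finite bases (they may share elements), let `n = |B \ B'|`, and let `X` be a subset of `B`. Then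
there are a subset `Y` of `B'` with `|Y| = |X|` and a sequence of steps from `(B, B')` to
`((B \ X) ∪ Y, (B' \ Y) ∪ X)` through pairs of bases whose first basis contains `B \ X`, each of
which exchanges at most two elements of the first basis with as many elements of the second one. If
all positive integers `m ≤ |X|` are nonzero in `K`, then every step is a symmetric exchange of one
element with one element. For `X = B`, where the sequence leads to `(B', B)`, this already holds
if `n ≤ 13`, or if `n ≤ 33` and `3 = 0` in `K`, or if all positive integers `s ≤ (n + 2) / 4` are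
nonzero in `K`; and if all positive integers `s ≤ n / 2 + 1` are nonzero in `K`, then in addition
in every step from a pair `P` to a pair `Q` the first basis loses no element of `B'`, unless both
`P` and `Q` are in the middle. -/
theorem result {α K V : Type*} [Field K] [AddCommGroup V] [Module K V]
    (M : Matroid α) (φ : α → V) (hφ : ∀ I ⊆ M.E, M.Indep I ↔ LinearIndepOn K φ I)
    {B B' : Set α} (hB : M.IsBase B) (hB' : M.IsBase B') (hfin : B.Finite)
    {X : Set α} (hX : X ⊆ B) :
    ∃ Y ⊆ B', Y.ncard = X.ncard ∧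
      Relation.ReflTransGen
        (fun P Q => TwoExchange M P Q ∧ B \ X ⊆ Q.1 ∧
          ((∀ m : ℕ, 0 < m → m ≤ X.ncard → (m : K) ≠ 0) → SymExchange M P Q) ∧
          (X = B → ((B \ B').ncard ≤ 13 ∨ ((3 : K) = 0 ∧ (B \ B').ncard ≤ 33) ∨
            ∀ s : ℕ, 0 < s → 4 * s ≤ (B \ B').ncard + 2 → (s : K) ≠ 0) → SymExchange M P Q) ∧
          (X = B → (∀ s : ℕ, 0 < s → 2 * s ≤ (B \ B').ncard + 2 → (s : K) ≠ 0) →
            P.1 ∩ B' ⊆ Q.1 ∨ (Middle B B' P ∧ Middle B B' Q)))
        (B, B') ((B \ X) ∪ Y, (B' \ Y) ∪ X) := by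
  have hr' : B'.ncard = B.ncard := hB'.ncard_eq_ncard_of_isBase hB
  have hfin' : B'.Finite := by
    rw [← Set.encard_lt_top_iff, hB'.encard_eq_encard_of_isBase hB, Set.encard_lt_top_iff]
    exact hfin
  by_cases hs : X = B ∧ ∀ s : ℕ, 0 < s → 2 * s ≤ (B \ B').ncard + 2 → (s : K) ≠ 0
  · obtain ⟨rfl, hK⟩ := hs
    refine ⟨B', subset_rfl, hr', ?_⟩
    rw [Set.sdiff_self, Set.empty_union, Set.sdiff_self, Set.empty_union]
    refine Relation.ReflTransGen.mono ?_ _ _
      (Pool.Agent.H68Rg.monotone_of_paths (K := K) M φ hφ hB hB' hfin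
        (fun s t => s ⊆ t ∨ (((X \ B').ncard ≤ 2 * s.ncard + 2 ∧ 2 * s.ncard ≤ (X \ B').ncard + 2) ∧
          ((X \ B').ncard ≤ 2 * t.ncard + 2 ∧ 2 * t.ncard ≤ (X \ B').ncard + 2))) ?_)
    · rintro P Q ⟨h1, h2, h3⟩
      refine ⟨SymExchange.two h1, Set.empty_subset _, fun _ => h1, fun _ _ => h1,
        fun _ _ => h3.imp (fun h x hx => ?_) id⟩
      by_cases hxB : x ∈ X
      · exact h2 ⟨hxB, hx.2⟩
      · exact (h ⟨hx.1, hx.2, hxB⟩).1
    · intro b' hb' _ F h1 h2 h3
      refine Relation.ReflTransGen.mono ?_ _ _ (Pool.Agent.H64SwK.path_all hK F h1 h2 h3)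
      rintro A A' ⟨h4, h5, h6⟩
      refine ⟨h4, h5, h6.imp (fun h => Set.image_mono (Finset.coe_subset.2 h)) fun h => ?_⟩
      rw [hb'.injOn.ncard_image, Set.ncard_coe_finset, hb'.injOn.ncard_image, Set.ncard_coe_finset]
      exact h
  by_cases hc : X = B ∧ ((B \ B').ncard ≤ 13 ∨ ((3 : K) = 0 ∧ (B \ B').ncard ≤ 33) ∨
      ∀ s : ℕ, 0 < s → 4 * s ≤ (B \ B').ncard + 2 → (s : K) ≠ 0)
  · obtain ⟨rfl, hK⟩ := hc
    refine ⟨B', subset_rfl, hr', ?_⟩
    rw [Set.sdiff_self, Set.empty_union, Set.sdiff_self, Set.empty_union]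
    refine Relation.ReflTransGen.mono ?_ _ _ (Pool.Agent.H60S1.single (K := K) M φ hφ hB hB' hfin hK)
    intro P Q h1
    exact ⟨SymExchange.two h1, Set.empty_subset _, fun _ => h1, fun _ _ => h1,
      fun h3 h4 => absurd ⟨h3, h4⟩ hs⟩
  · have key : ∀ R : Set α × Set α → Set α × Set α → Prop,
        (∃ Y ⊆ B', Y.ncard = (B \ X).ncard ∧ Relation.ReflTransGen R (B, B')
          ((B \ X) ∪ (B' \ Y), (B \ (B \ X)) ∪ Y)) →
        ∃ Y ⊆ B', Y.ncard = X.ncard ∧ Relation.ReflTransGen R (B, B')
          ((B \ X) ∪ Y, (B' \ Y) ∪ X) := by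
      rintro R ⟨Y, hY, hYc, h⟩
      refine ⟨B' \ Y, Set.sdiff_subset, ?_, ?_⟩
      · have e1 := Set.ncard_sdiff_add_ncard_of_subset hY hfin'
        have e2 := Set.ncard_sdiff_add_ncard_of_subset hX hfin
        omega
      · have e3 : B \ (B \ X) = X := Set.sdiff_sdiff_cancel_left hX
        have e4 : B' \ (B' \ Y) = Y := Set.sdiff_sdiff_cancel_left hY
        rw [e3] at h
        rw [e4, Set.union_comm Y X]
        exact h
    by_cases hm : ∀ m : ℕ, 0 < m → m ≤ X.ncard → (m : K) ≠ 0
    · apply key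
      obtain ⟨Y, hY, hYc, h⟩ := Pool.Agent.H11SW.swap (K := K) M φ hφ hB hB' hfin
        (X := B \ X) Set.sdiff_subset (by
          intro m h1 h2
          refine hm m h1 ?_
          have e2 := Set.ncard_sdiff_add_ncard_of_subset hX hfin
          omega)
      refine ⟨Y, hY, hYc, Relation.ReflTransGen.mono ?_ _ _ h⟩
      rintro P Q ⟨h1, h2⟩
      exact ⟨SymExchange.two h1, h2, fun _ => h1, fun _ _ => h1,
        fun h3 h4 => absurd ⟨h3, h4⟩ hs⟩
    · apply key
      obtain ⟨Y, hY, hYc, h⟩ := Pool.Agent.H47Two.two_swap (K := K) M φ hφ hB hB' hfin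
        (X := B \ X) Set.sdiff_subset
      refine ⟨Y, hY, hYc, Relation.ReflTransGen.mono ?_ _ _ h⟩
      rintro P Q ⟨h1, h2⟩
      exact ⟨h1, h2, fun h3 => absurd h3 hm, fun h3 h4 => absurd ⟨h3, h4⟩ hc,
        fun h3 h4 => absurd ⟨h3, h4⟩ hs⟩

end Pool.Agent.Results.MP_77f645_co.MonotoneSwap
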