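import Pool.Agent.H11Dy.Final
import Pool.Agent.H47PS.LocFinal

/-!
# MP_77f645_co: swapping two bases by a polynomial number of symmetric exchanges

Let `M` be a matroid of rank `r` which is represented by vectors in `ℂ ^ r`, and let `B`, `B'` be
two bases, `n = |B \ B'|`. If no pair of bases with the same union and intersection has a much
larger product of determinants than `(B, B')`, then a polynomial number of symmetric exchanges turns
`(B, B')` into `(B', B)`: at most `n ^ 2` if the nonzero determinants have absolute value one. It is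
enough to bound the quotients of these products for pairs of bases which differ in exactly two
elements; so this covers the matroids which are representable over a given group of complex numbers
with finitely many, or bounded, fundamental elements.
-/

set_option autoImplicit false

namespace Pool.Agent.Results.MP_77f645_co.PolynomialSwap

/-- The absolute value of the determinant of the vectors `φ (x 0), ..., φ (x (r - 1))`. -/
noncomputable def absDet {α : Type*} {r : ℕ} (φ : α → Fin r → ℂ) (x : Fin r → α) : ℝ :=
  ‖(Matrix.of fun i => φ (x i)).det‖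

/-- `x` and `y` enumerate two sets of `r` elements with the same union and the same intersection as
`B` and `B'`. -/
def Splits {α : Type*} {r : ℕ} (B B' : Set α) (x y : Fin r → α) : Prop :=
  Function.Injective x ∧ Function.Injective y ∧
    Set.range x ∪ Set.range y = B ∪ B' ∧ Set.range x ∩ Set.range y = B ∩ B'

/-- The pair `Q` arises from the pair `P` by a symmetric exchange of an element `x` of its first set
with an element `y` of its second set, and both sets of `Q` are bases of `M`. -/
def SymExchange {α : Type*} (M : Matroid α) (P Q : Set α × Set α) : Prop :=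
  (∃ x ∈ P.1, ∃ y ∈ P.2, Q.1 = insert y (P.1 \ {x}) ∧ Q.2 = insert x (P.2 \ {y})) ∧
    M.IsBase Q.1 ∧ M.IsBase Q.2

/-- The pairs of bases with the same union and the same intersection as `B` and `B'`. -/
def Pairs {α : Type*} (M : Matroid α) (B B' : Set α) : Set (Set α × Set α) :=
  {p | M.IsBase p.1 ∧ M.IsBase p.2 ∧ p.1 ∪ p.2 = B ∪ B' ∧ p.1 ∩ p.2 = B ∩ B'}

/-- There is a sequence of `N` symmetric exchanges which leads from `(B, B')` to `(B', B)`, where
`(1 + 2 / n) ^ N ≤ (n + 1) p L`, and `N ≤ n ^ 2 + s ⌈n / 2⌉` whenever `L ≤ 2 ^ s`; here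
`n = |B \ B'|` and `p` is the number of pairs of bases with the same union and the same intersection
as `B` and `B'`. -/
def ShortSwap {α : Type*} (M : Matroid α) (B B' : Set α) (L : ℝ) : Prop :=
  ∃ N : ℕ, (∃ P : ℕ → Set α × Set α, P 0 = (B, B') ∧ P N = (B', B) ∧
      ∀ i < N, SymExchange M (P i) (P (i + 1))) ∧
    (1 + 2 / ((B \ B').ncard : ℝ)) ^ N ≤ ((B \ B').ncard + 1) * (Pairs M B B').ncard * L ∧
    ∀ s : ℕ, L ≤ 2 ^ s → N ≤ (B \ B').ncard ^ 2 + s * (((B \ B').ncard + 1) / 2)

/-- Let the matroid `M` be represented by the vectors `φ e` in `ℂ ^ r`, and let `b`, `b'` enumerate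
two bases `B`, `B'` of `M` (they may share elements).
(1) If `(|det x| |det y|) ^ 2 ≤ L (|det b| |det b'|) ^ 2` for all `x`, `y` which enumerate two sets
with the same union and intersection as `B` and `B'`, then `ShortSwap M B B' L` holds.
(2) If the nonzero determinants of `r` of the vectors `φ e`, `e ∈ B ∪ B'`, have absolute values in
`[1, D]`, then `ShortSwap M B B' (D ^ 4)` holds; in particular `n ^ 2` exchanges suffice for
`D = 1`.
(3) In any case there are two bases `X`, `Y` with the same union and intersection as `B` and `B'`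
such that `ShortSwap M X Y 1` holds; so `n ^ 2` exchanges lead from `(X, Y)` to `(Y, X)`.
(4) Let `c ≥ 1` be such that `|det z| |det w| ≤ c |det x| |det y|` whenever `x`, `y` enumerate two
bases contained in `B ∪ B'` which differ in exactly two elements and `z`, `w` enumerate two sets
with the same union and intersection as these. Then `ShortSwap M B B' L` holds, where `L` is the
square of the product of the numbers `c ^ k k!`, `0 ≤ k ≤ r`.
(5) If the determinants of `r` of the vectors `φ e`, `e ∈ B ∪ B'`, are `0` or `ζ 2 ^ m`, where `ζ`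
is a root of unity and `m` an integer, then `ShortSwap M B B' ((r! ^ 2 2 ^ r) ^ 2)` holds. -/
theorem result {α : Type*} {r : ℕ} (M : Matroid α) (φ : α → Fin r → ℂ)
    (hφ : ∀ I ⊆ M.E, M.Indep I ↔ LinearIndepOn ℂ φ I)
    (b b' : Fin r → α) (hb : Function.Injective b) (hb' : Function.Injective b')
    (hB : M.IsBase (Set.range b)) (hB' : M.IsBase (Set.range b')) :
    (∀ L : ℝ, (∀ x y : Fin r → α, Splits (Set.range b) (Set.range b') x y →
        (absDet φ x * absDet φ y) ^ 2 ≤ L * (absDet φ b * absDet φ b') ^ 2) →
      ShortSwap M (Set.range b) (Set.range b') L) ∧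
    (∀ D : ℝ, (∀ x : Fin r → α, Set.range x ⊆ Set.range b ∪ Set.range b' →
        absDet φ x = 0 ∨ (1 ≤ absDet φ x ∧ absDet φ x ≤ D)) →
      ShortSwap M (Set.range b) (Set.range b') (D ^ 4)) ∧
    (∃ X Y : Set α, M.IsBase X ∧ M.IsBase Y ∧ X ∪ Y = Set.range b ∪ Set.range b' ∧
      X ∩ Y = Set.range b ∩ Set.range b' ∧ ShortSwap M X Y 1) ∧
    (∀ c : ℝ, 1 ≤ c →
      (∀ x y z w : Fin r → α, Function.Injective x → Function.Injective y →
        M.IsBase (Set.range x) → M.IsBase (Set.range y) →
        Set.range x ∪ Set.range y ⊆ Set.range b ∪ Set.range b' →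
        (Set.range x \ Set.range y).ncard = 2 → Splits (Set.range x) (Set.range y) z w →
        absDet φ z * absDet φ w ≤ c * (absDet φ x * absDet φ y)) →
      ShortSwap M (Set.range b) (Set.range b')
        ((∏ k ∈ Finset.range (r + 1), (c ^ k * (k.factorial : ℝ))) ^ 2)) ∧
    ((∀ x : Fin r → α, Set.range x ⊆ Set.range b ∪ Set.range b' →
        (Matrix.of fun i => φ (x i)).det = 0 ∨ ∃ (k : ℕ) (ζ : ℂ) (m : ℤ), 0 < k ∧ ζ ^ k = 1 ∧
          (Matrix.of fun i => φ (x i)).det = ζ * 2 ^ m) →
      ShortSwap M (Set.range b) (Set.range b') (((r.factorial : ℝ) ^ 2 * 2 ^ r) ^ 2)) :=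
  ⟨fun _ hs => H47PS.final1 M φ hφ b b' hb hb' hB hB' hs,
    fun _ hs => H47PS.final2 M φ hφ b b' hb hb' hB hB' hs,
    H47PS.final3 M φ hφ b b' hb hb' hB hB',
    fun c hc1 hc => H47PS.LB.final_local M φ hφ b b' hb hb' hB hB' c hc1 hc,
    fun hD => H11Dy.final4 M φ hφ b b' hb hb' hB hB' hD⟩

end Pool.Agent.Results.MP_77f645_co.PolynomialSwap
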