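import Pool.Agent.Gab7e_h87.Or5

/-!
# MP_77f645_co: Gabow's conjecture up to 3-connected minors of rank at least eight

Any two bases of a matroid (of any rank `r`) which differ in at most seven elements can be ordered
such that all blocks of `r` cyclically consecutive terms are bases. More generally, this holds if
there is no 3-connected minor of rank at least eight whose ground set is the disjoint union of two
bases, and a smallest counterexample to the conjecture is such a matroid.
-/

set_option autoImplicit false

namespace Pool.Agent.Results.MP_77f645_co.SmallRankSeven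

open scoped Matroid

/-- The block of `r` cyclically consecutive terms, starting with the term number `i`, of the
sequence `u 0, ..., u (r - 1), v 0, ..., v (r - 1)` of length `2 r` (numbered from `0`): the set of
all terms whose number `j` satisfies `(j - i) mod 2 r < r`. -/
def block {α : Type*} {r : ℕ} (u v : Fin r → α) (i : Fin (r + r)) : Set α :=
  {x | ∃ j : Fin (r + r), (j - i).val < r ∧ x = Fin.append u v j}

/-- The lists `b` and `b'` can be reordered such that all `2 r` blocks of `r` cyclically
consecutive terms are bases of `M`. -/
def Orderable {α : Type*} (M : Matroid α) {r : ℕ} (b b' : Fin r → α) : Prop :=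
  ∃ σ σ' : Equiv.Perm (Fin r), ∀ i : Fin (r + r), M.IsBase (block (b ∘ σ) (b' ∘ σ') i)

/-- The matroid `N` (with a finite ground set `E`) is 3-connected: for every `K ⊆ E` such that `K`
and `E \ K` have at least two elements there are two bases of `N` whose numbers of elements in `K`
differ by at least two. The largest and the smallest of these numbers are `r(K)` and
`r(N) - r(E \ K)`, so the condition is `r(K) + r(E \ K) ≥ r(N) + 2`; if `E` has at least four
elements it says that `N` has neither a 1-separation nor a 2-separation. -/
def ThreeConnected {α : Type*} (N : Matroid α) : Prop :=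
  ∀ K ⊆ N.E, 2 ≤ K.ncard → 2 ≤ (N.E \ K).ncard →
    ∃ A A', N.IsBase A ∧ N.IsBase A' ∧ (A' ∩ K).ncard + 2 ≤ (A ∩ K).ncard

/-- Every nonempty proper subset `K` of the ground set of `N` has fewer than `2 r(K)` elements: some
basis has more than half of the elements of `K`. -/
def StrictlyDense {α : Type*} (N : Matroid α) : Prop :=
  ∀ K ⊆ N.E, K.Nonempty → K ≠ N.E → ∃ A, N.IsBase A ∧ K.ncard < 2 * (A ∩ K).ncard

/-- Let `b` and `b'` list two bases `B` and `B'` of a matroid `M` (they may share elements).

(1) If `B \ B'` has at most seven elements (for example, if the rank or the corank of `M` is at most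
seven), then `b` and `b'` are orderable, i.e. they can be reordered such that all `2 r` blocks of `r`
cyclically consecutive terms are bases of `M`.

(2) In general `b` and `b'` are orderable, or there is a 3-connected minor `N` of
`(M | (B ∪ B')) / (B ∩ B')` of rank `n ≥ 8`, in which every nonempty proper subset `K` of the ground
set has fewer than `2 r(K)` elements and whose ground set is the disjoint union of two bases which
are not orderable in `N`. -/
theorem result {α : Type*} (M : Matroid α) {r : ℕ} (b b' : Fin r → α)
    (hb : Function.Injective b) (hb' : Function.Injective b')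
    (hB : M.IsBase (Set.range b)) (hB' : M.IsBase (Set.range b')) :
    ((Set.range b \ Set.range b').ncard ≤ 7 → Orderable M b b') ∧
    (Orderable M b b' ∨ ∃ N : Matroid α,
      N ≤m (M ↾ (Set.range b ∪ Set.range b')) ／ (Set.range b ∩ Set.range b') ∧
      ThreeConnected N ∧ StrictlyDense N ∧ ∃ (n : ℕ) (a a' : Fin n → α), 8 ≤ n ∧
        Function.Injective a ∧ Function.Injective a' ∧
        N.IsBase (Set.range a) ∧ N.IsBase (Set.range a') ∧
        Disjoint (Set.range a) (Set.range a') ∧ Set.range a ∪ Set.range a' = N.E ∧
        ¬ Orderable N a a') :=
  ⟨fun hd => Pool.Agent.Gab7c47.few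
    (fun M _ hr b b' h1 h2 h3 h4 => Pool.Agent.Gab7c_h87.gabow_le_seven M hr b b' h1 h2 h3 h4)
    M b b' hb hb' hB hB' hd,
    Pool.Agent.Gab7e_h87.either M b b' hb hb' hB hB'⟩

end Pool.Agent.Results.MP_77f645_co.SmallRankSeven
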